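import Mathlib

/-!
Hurewicz sets of reals, the bounding number and concentrated sets.
-/

namespace Pool.Agent.H50Z.Hur

open Set

/-- The Cantor space. -/
abbrev Cantor : Type := ℕ → Bool

/-- Hurewicz's property: for every sequence of open covers there are finite subfamilies such that
every point lies in the union of the n-th subfamily for all but finitely many n. -/
def IsHurewicz (X : Type) [TopologicalSpace X] : Prop :=
  ∀ U : ℕ → Set (Set X), (∀ n, (∀ u ∈ U n, IsOpen u) ∧ ⋃₀ U n = Set.univ) →
    ∃ F : ℕ → Set (Set X), (∀ n, (F n).Finite ∧ F n ⊆ U n) ∧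
      ∀ x : X, {n : ℕ | x ∉ ⋃₀ F n}.Finite

/-- A set of reals whose product with every Hurewicz set of reals is Hurewicz. -/
def IsProductivelyHurewicz (X : Set Cantor) : Prop :=
  ∀ Y : Set Cantor, IsHurewicz Y → IsHurewicz (X × Y)

/-- A family of functions is unbounded under eventual domination. -/
def IsUnbounded (F : Set (ℕ → ℕ)) : Prop :=
  ¬ ∃ g : ℕ → ℕ, ∀ f ∈ F, {n : ℕ | g n < f n}.Finite

/-- The bounding number: the least size of an unbounded family. -/
noncomputable def boundingNumber : Cardinal.{0} :=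
  sInf {c : Cardinal.{0} | ∃ F : Set (ℕ → ℕ), IsUnbounded F ∧ Cardinal.mk F = c}

/-- `X` is `κ`-concentrated on its subset `A`. -/
def IsConcentratedOn (κ : Cardinal.{0}) (X A : Set Cantor) : Prop :=
  A ⊆ X ∧ κ ≤ Cardinal.mk X ∧ ∀ U : Set Cantor, IsOpen U → A ⊆ U → Cardinal.mk (X \ U : Set Cantor) < κ

/-- `X` is `κ`-concentrated on some countable subset. -/
def IsConcentrated (κ : Cardinal.{0}) (X : Set Cantor) : Prop :=
  ∃ A : Set Cantor, A.Countable ∧ IsConcentratedOn κ X A

end Pool.Agent.H50Z.Hur
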