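import Pool.Agent.H50Z.Hur.Defs

namespace Pool.Agent.H50Z.Hur

open Set Filter Topology

variable {M : Type} [TopologicalSpace M]

/-- Between the set and any larger G-delta set there is a countable union of closed sets. -/
def Sep (Z : Set M) : Prop :=
  ∀ G : Set M, IsGδ G → Z ⊆ G → ∃ L : ℕ → Set M, (∀ n, IsClosed (L n)) ∧ Z ⊆ ⋃ n, L n ∧
    (⋃ n, L n) ⊆ G

theorem sep_of_hurewicz [CompactSpace M] [T2Space M] {Z : Type} [TopologicalSpace Z]
    (e : Z → M) (he : Continuous e) (h : IsHurewicz Z) : Sep (range e) := by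
  intro G hG hZG
  obtain ⟨W, hW, rfl⟩ := hG.eq_iInter_nat
  set W' : ℕ → Set M := fun n => ⋂ k ∈ Finset.range (n + 1), W k with hW'
  have hW'o : ∀ n, IsOpen (W' n) := fun n => isOpen_biInter_finset fun k _ => hW k
  let U : ℕ → Set (Set Z) := fun n =>
    {u | ∃ K : Set M, IsClosed K ∧ K ⊆ W' n ∧ u = e ⁻¹' interior K}
  obtain ⟨F, hF, hx⟩ := h U (fun n => ⟨by
      rintro u ⟨K, -, -, rfl⟩
      exact isOpen_interior.preimage he, by
      apply eq_univ_of_forall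
      intro z
      have hz : e z ∈ W' n := by
        simp only [hW', mem_iInter]
        intro k _
        exact mem_iInter.1 (hZG ⟨z, rfl⟩) k
      obtain ⟨K, hK1, hK2, hK3⟩ := exists_mem_nhds_isClosed_subset ((hW'o n).mem_nhds hz)
      exact ⟨_, ⟨K, hK2, hK3, rfl⟩, mem_interior_iff_mem_nhds.2 hK1⟩⟩)
  have hK : ∀ n, ∃ K : Set M, IsClosed K ∧ K ⊆ W' n ∧ ∀ z ∈ ⋃₀ F n, e z ∈ K := by
    intro n
    have h1 : ∀ u ∈ F n, ∃ K : Set M, IsClosed K ∧ K ⊆ W' n ∧ u = e ⁻¹' interior K :=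
      fun u hu => (hF n).2 hu
    choose! K hK1 hK2 hK3 using h1
    refine ⟨⋃ u ∈ F n, K u, (hF n).1.isClosed_biUnion hK1, iUnion₂_subset hK2, ?_⟩
    rintro z ⟨u, hu, hz⟩
    rw [hK3 u hu] at hz
    exact mem_biUnion hu (interior_subset hz)
  choose K hK1 hK2 hK3 using hK
  refine ⟨fun m => ⋂ n ≥ m, K n, fun m => isClosed_biInter fun n _ => hK1 n, ?_, ?_⟩
  · rintro _ ⟨z, rfl⟩
    obtain ⟨m, hm⟩ := (hx z).bddAbove
    refine mem_iUnion.2 ⟨m + 1, mem_iInter₂.2 fun n hn => hK3 n z ?_⟩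
    by_contra hc
    have := hm (show n ∈ {n : ℕ | z ∉ ⋃₀ F n} from hc)
    omega
  · intro y hy
    obtain ⟨m, hm⟩ := mem_iUnion.1 hy
    refine mem_iInter.2 fun k => ?_
    have h1 := hK2 (max m k) (mem_iInter₂.1 hm (max m k) (le_max_left _ _))
    simp only [hW', mem_iInter] at h1
    exact h1 k (Finset.mem_range.2 (by omega))

theorem hurewicz_of_sep [CompactSpace M] {Z : Type} [TopologicalSpace Z]
    (e : Z → M) (he : IsInducing e) (h : Sep (range e)) : IsHurewicz Z := by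
  intro U hU
  have h1 : ∀ n, ∀ u ∈ U n, ∃ v : Set M, IsOpen v ∧ e ⁻¹' v = u :=
    fun n u hu => he.isOpen_iff.1 ((hU n).1 u hu)
  choose! V hV1 hV2 using h1
  let W : ℕ → Set M := fun n => ⋃ u ∈ U n, V n u
  have hWo : ∀ n, IsOpen (W n) := fun n => isOpen_biUnion fun u hu => hV1 n u hu
  obtain ⟨L, hL1, hL2, hL3⟩ := h (⋂ n, W n) (IsGδ.iInter fun n => (hWo n).isGδ) (by
    rintro _ ⟨z, rfl⟩
    refine mem_iInter.2 fun n => ?_
    have : z ∈ ⋃₀ U n := (hU n).2 ▸ mem_univ z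
    obtain ⟨u, hu, hz⟩ := this
    refine mem_biUnion hu ?_
    rw [← hV2 n u hu] at hz
    exact hz)
  have h2 : ∀ n, ∃ F : Set (Set Z), F ⊆ U n ∧ F.Finite ∧
      (⋃ k ∈ Finset.range (n + 1), L k) ⊆ ⋃ u ∈ F, V n u := by
    intro n
    have hc : IsCompact (⋃ k ∈ Finset.range (n + 1), L k) :=
      (isClosed_biUnion_finset fun k _ => hL1 k).isCompact
    apply hc.elim_finite_subcover_image (fun u hu => hV1 n u hu)
    intro y hy
    obtain ⟨k, -, hk⟩ := mem_iUnion₂.1 hy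
    exact mem_iInter.1 (hL3 (mem_iUnion.2 ⟨k, hk⟩)) n
  choose F hF1 hF2 hF3 using h2
  refine ⟨F, fun n => ⟨hF2 n, hF1 n⟩, fun z => ?_⟩
  obtain ⟨m, hm⟩ := mem_iUnion.1 (hL2 ⟨z, rfl⟩)
  refine (finite_lt_nat m).subset fun n hn => ?_
  by_contra hc
  apply hn
  have h3 : e z ∈ ⋃ k ∈ Finset.range (n + 1), L k :=
    mem_iUnion₂.2 ⟨m, Finset.mem_range.2 (by simp at hc; omega), hm⟩
  obtain ⟨u, hu, hz⟩ := mem_iUnion₂.1 (hF3 n h3)
  refine ⟨u, hu, ?_⟩
  rw [← hV2 n u (hF1 n hu)]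
  exact hz

theorem isGδ_tube [CompactSpace M] [T2Space M] {G : Set (M × M)} (hG : IsGδ G)
    {ι : Type} [Countable ι] (L : ι → Set M) (hL : ∀ i, IsClosed (L i)) :
    IsGδ {x : M | ∀ y ∈ ⋃ i, L i, (x, y) ∈ G} := by
  obtain ⟨W, hW, rfl⟩ := hG.eq_iInter_nat
  have : {x : M | ∀ y ∈ ⋃ i, L i, (x, y) ∈ ⋂ n, W n} =
      ⋂ n, ⋂ i, (Prod.fst '' ((univ ×ˢ L i) \ W n))ᶜ := by
    ext x
    simp only [mem_setOf_eq, mem_iUnion, mem_iInter, mem_compl_iff, mem_image, mem_diff,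
      mem_prod, mem_univ, true_and, forall_exists_index, not_exists, not_and]
    constructor
    · rintro h n i ⟨a, b⟩ ⟨h1, h2⟩ rfl
      exact h2 (h b i h1 n)
    · intro h y i hy n
      by_contra hc
      exact h n i (x, y) ⟨hy, hc⟩ rfl
  rw [this]
  refine IsGδ.iInter fun n => IsGδ.iInter fun i => IsOpen.isGδ ?_
  rw [isOpen_compl_iff]
  apply IsCompact.isClosed
  apply IsCompact.image _ continuous_fst
  exact ((isClosed_univ.prod (hL i)).sdiff (hW n)).isCompact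

theorem sep_prod [CompactSpace M] [T2Space M] {X Y D : Set M} (hX : Sep X) (hY : Sep Y)
    (hD : D.Countable) (hDX : D ⊆ X)
    (hc : ∀ U : Set M, IsOpen U → D ⊆ U → (X \ U).Countable) : Sep (X ×ˢ Y) := by
  intro G hG hXY
  have sec : ∀ A : Set M, A.Countable → A ⊆ X → ∃ L : ℕ → Set M, (∀ n, IsClosed (L n)) ∧
      Y ⊆ ⋃ n, L n ∧ ∀ a ∈ A, ∀ y ∈ ⋃ n, L n, (a, y) ∈ G := by
    intro A hA hAX
    obtain ⟨L, h1, h2, h3⟩ := hY (⋂ a ∈ A, (fun y => (a, y)) ⁻¹' G)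
      (IsGδ.biInter hA fun a _ => hG.preimage (by fun_prop))
      (fun y hy => mem_iInter₂.2 fun a ha => hXY ⟨hAX ha, hy⟩)
    exact ⟨L, h1, h2, fun a ha y hy => mem_iInter₂.1 (h3 hy) a ha⟩
  obtain ⟨L, hL1, hL2, hL3⟩ := sec D hD hDX
  have hH := isGδ_tube hG L hL1
  set H := {x : M | ∀ y ∈ ⋃ i, L i, (x, y) ∈ G} with hHdef
  have hA : (X \ H).Countable := by
    obtain ⟨W, hW, hHW⟩ := hH.eq_iInter_nat
    have hDW : ∀ n, D ⊆ W n := fun n d hd => by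
      have : d ∈ H := hL3 d hd
      rw [hHW] at this
      exact mem_iInter.1 this n
    rw [hHW, diff_iInter]
    exact countable_iUnion fun n => hc _ (hW n) (hDW n)
  obtain ⟨L', hL1', hL2', hL3'⟩ := sec (X \ H) hA diff_subset
  let P : ℕ × ℕ → Set M := fun p => L p.1 ∩ L' p.2
  have hP : ∀ p, IsClosed (P p) := fun p => (hL1 _).inter (hL1' _)
  obtain ⟨F, hF1, hF2, hF3⟩ := hX _ (isGδ_tube hG P hP) (by
    intro x hx y hy
    obtain ⟨p, hp1, hp2⟩ := mem_iUnion.1 hy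
    by_cases hxH : x ∈ H
    · exact hxH y (mem_iUnion.2 ⟨_, hp1⟩)
    · exact hL3' x ⟨hx, hxH⟩ y (mem_iUnion.2 ⟨_, hp2⟩))
  obtain ⟨e, he⟩ := exists_surjective_nat (ℕ × ℕ × ℕ)
  refine ⟨fun n => F (e n).1 ×ˢ P (e n).2, fun n => (hF1 _).prod (hP _), ?_, ?_⟩
  · rintro ⟨x, y⟩ ⟨hx, hy⟩
    obtain ⟨i, hi⟩ := mem_iUnion.1 (hF2 hx)
    obtain ⟨j, hj⟩ := mem_iUnion.1 (hL2 hy)
    obtain ⟨k, hk⟩ := mem_iUnion.1 (hL2' hy)
    obtain ⟨n, hn⟩ := he (i, j, k)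
    refine mem_iUnion.2 ⟨n, ?_⟩
    rw [hn]
    exact ⟨hi, hj, hk⟩
  · rintro ⟨x, y⟩ hxy
    obtain ⟨n, hx, hy⟩ := mem_iUnion.1 hxy
    exact hF3 (mem_iUnion.2 ⟨_, hx⟩) y (mem_iUnion.2 ⟨_, hy⟩)

theorem boundingNumber_le : boundingNumber ≤ Cardinal.continuum := by
  apply csInf_le'
  refine ⟨univ, ?_, ?_⟩
  · rintro ⟨g, hg⟩
    have := hg (fun n => g n + 1) (mem_univ _)
    simp only [lt_add_iff_pos_right, Nat.lt_one_iff, setOf_true] at this
    exact infinite_univ this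
  · simp

theorem main (hb : boundingNumber ≤ Cardinal.aleph 1) (X : Set Cantor) (hX : IsHurewicz X)
    (hc : IsConcentrated boundingNumber X) : IsProductivelyHurewicz X := by
  intro Y hY
  obtain ⟨D, hD, hDX, -, hc⟩ := hc
  have h1 : Sep X := by
    have := sep_of_hurewicz (Subtype.val : X → Cantor) continuous_subtype_val hX
    rwa [Subtype.range_coe] at this
  have h2 : Sep Y := by
    have := sep_of_hurewicz (Subtype.val : Y → Cantor) continuous_subtype_val hY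
    rwa [Subtype.range_coe] at this
  have h3 := sep_prod h1 h2 hD hDX (fun U hU hDU =>
    (Cardinal.countable_iff_lt_aleph_one _).2 ((hc U hU hDU).trans_le hb))
  apply hurewicz_of_sep (Prod.map (Subtype.val : X → Cantor) (Subtype.val : Y → Cantor))
    (IsInducing.subtypeVal.prodMap IsInducing.subtypeVal)
  rwa [range_prodMap, Subtype.range_coe, Subtype.range_coe]

end Pool.Agent.H50Z.Hur
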